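import Pool.Agent.TH296.Nut.All
import Pool.Agent.J6H28.Nut.OddAll
import Pool.Agent.J6H28.Nut.Conv

/-!
# Orders of regular nut graphs of even degree: definitions and statements of the modules
-/

set_option autoImplicit false
set_option linter.unusedSectionVars false

namespace Pool.Agent.J6H68.Nut

open Finset Pool.Agent.TH296.Nut Pool.Agent.J6H28.Nut

/-! ### Part 1: gluing arbitrary regular nut graphs -/

/-- Module R1. -/
def StR1 : Prop :=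
  ∀ ρ n : ℕ, Good ρ n → 1 ≤ ρ → ρ + 3 ≤ n → (n - ρ) % 2 = 1 → Good n (2 * n - ρ)

/-- Module C5. -/
def StC5 : Prop :=
  ∀ ρ r1 r2 r3 r4 r5 n1 n2 n3 n4 n5 : ℕ,
    Good r1 n1 → Good r2 n2 → Good r3 n3 → Good r4 n4 → Good r5 n5 →
    1 ≤ r1 → 1 ≤ r2 → 1 ≤ r3 → 1 ≤ r4 → 1 ≤ r5 →
    r1 + 2 ≤ n1 → r2 + 2 ≤ n2 → r3 + 2 ≤ n3 → r4 + 2 ≤ n4 → r5 + 2 ≤ n5 →
    r1 + n5 + n2 = ρ → r2 + n1 + n3 = ρ → r3 + n2 + n4 = ρ → r4 + n3 + n5 = ρ →
    r5 + n4 + n1 = ρ → Good ρ (n1 + n2 + n3 + n4 + n5)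

/-! ### Part 2: explicit graphs -/

/-- bit `j` of `r` -/
def bt (r j : ℕ) : ℕ := r / 2 ^ j % 2

/-- digit `j` of `r` in base `16` -/
def dg (r j : ℕ) : ℕ := r / 16 ^ j % 16

/-- A certificate for a `ρ`-regular nut graph on `Fin n`: `A` lists the rows of the adjacency
matrix as bit masks, `x` is the kernel vector, and the rows of `L` (base `16` digits) are a left
inverse modulo `p` of the matrix `M` obtained from `A` by replacing row `q` by the unit row `q`. -/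
def Spec (n ρ p q : ℕ) (A L : List ℕ) (x : List ℤ) : Prop :=
  2 ≤ n ∧ 2 ≤ p ∧ q < n ∧
  (∀ i < n, ∀ j < n, bt (A.getD i 0) j = bt (A.getD j 0) i) ∧
  (∀ i < n, bt (A.getD i 0) i = 0) ∧
  (∀ i < n, ∑ j ∈ range n, bt (A.getD i 0) j = ρ) ∧
  (∀ i < n, x.getD i 0 ≠ 0) ∧
  (∀ i < n, ∑ j ∈ range n, (bt (A.getD i 0) j : ℤ) * x.getD j 0 = 0) ∧
  (∀ j < n, ∀ k < n, (∑ i ∈ range n, dg (L.getD j 0) i *
    (if i = q then (if k = q then 1 else 0) else bt (A.getD i 0) k)) % p = if j = k then 1 else 0)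

/-- Module EXP. -/
def StExp : Prop :=
  ∀ (n ρ p q : ℕ) (A L : List ℕ) (x : List ℤ), Spec n ρ p q A L x → Good ρ n

/-- Module EXPE: with an adjacent pair `u`, `v` of equal kernel value. -/
def StExpE : Prop :=
  ∀ (n ρ p q u v : ℕ) (A L : List ℕ) (x : List ℤ), Spec n ρ p q A L x → u < n → v < n →
    bt (A.getD u 0) v = 1 → x.getD u 0 = x.getD v 0 → GoodE ρ 1 n

/-! ### Part 3: even orders, even degrees -/

section cores

variable {V : Type} [Fintype V] [DecidableEq V]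

/-- A core for even degree: a sparse signed graph `S` on `m` cells (pairs of vertices) at the
positions `0, ..., m - 1`, and a set `E` of excluded pairs of cells (it contains the diagonal and
the support of `S`): later two different cells outside `E` may be joined completely.  The edge `e f`
crosses the cut `p`. -/
structure Core4 (T : ℤ) (m p : ℕ) (V : Type) [Fintype V] [DecidableEq V] (S E : V → V → ℤ)
    (pos : V → ℕ) (a : V → ℤ) (e f g h : V) : Prop where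
  card : Fintype.card V = m
  inj : Function.Injective pos
  lt : ∀ v, pos v < m
  val : ∀ i j, S i j = 0 ∨ S i j = 1 ∨ S i j = -1
  symm : ∀ i j, S i j = S j i
  diag : ∀ i, S i i ≠ 1
  ev : ∀ i j, E i j = 0 ∨ E i j = 1
  esymm : ∀ i j, E i j = E j i
  ediag : ∀ i, E i i = 1
  se : ∀ i j, S i j ≠ 0 → E i j = 1
  row : ∀ i, ∑ j, (2 * E i j - S i j ^ 2) = if pos i = 0 then T else 4
  band : ∀ i j, E i j ≠ 0 → rel m p 0 2 (pos i) (pos j) ∨ (i = e ∧ j = f) ∨ (i = f ∧ j = e)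
  pe : pos e + 1 = p
  pf : pos f = p
  Sef : S e f = 1
  anz : ∀ i, a i ≠ 0
  hSa : ∀ i, ∑ j, S i j * a j = 0
  line : ∀ d : V → ℝ, (∀ i, ∑ j, (S i j : ℝ) * d j = 0) → ∃ c : ℝ, ∀ i, d i = c * a i
  gS : S g h ≠ 0
  gh : g ≠ h
  ga : a g = S g h * a h
  gef : ¬ ((g = e ∧ h = f) ∨ (g = f ∧ h = e))

/-- subdivision of the edge `e f` by four cells -/
def ins4 (S : V → V → ℤ) (e f : V) : V ⊕ Fin 4 → V ⊕ Fin 4 → ℤ
  | .inl i, .inl j => if (i = e ∧ j = f) ∨ (i = f ∧ j = e) then 0 else S i j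
  | .inl i, .inr t => if (i = e ∧ t = 0) ∨ (i = f ∧ t = 3) then 1 else 0
  | .inr t, .inl i => if (i = e ∧ t = 0) ∨ (i = f ∧ t = 3) then 1 else 0
  | .inr s, .inr t => if s.val + 1 = t.val ∨ t.val + 1 = s.val then 1 else 0

/-- the excluded pairs after the subdivision -/
def insE (E : V → V → ℤ) (e f : V) : V ⊕ Fin 4 → V ⊕ Fin 4 → ℤ
  | .inl i, .inl j => if (i = e ∧ j = f) ∨ (i = f ∧ j = e) then 0 else E i j
  | .inl i, .inr t => if (i = e ∧ t = 0) ∨ (i = f ∧ t = 3) then 1 else 0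
  | .inr t, .inl i => if (i = e ∧ t = 0) ∨ (i = f ∧ t = 3) then 1 else 0
  | .inr s, .inr t => if s = t ∨ s.val + 1 = t.val ∨ t.val + 1 = s.val then 1 else 0

/-- extension of a vector by four values -/
def ext4 {R : Type} (g : V → R) (b0 b1 b2 b3 : R) : V ⊕ Fin 4 → R
  | .inl i => g i
  | .inr t => if t = 0 then b0 else if t = 1 then b1 else if t = 2 then b2 else b3

/-- new positions -/
def npos4 (p : ℕ) (pos : V → ℕ) : V ⊕ Fin 4 → ℕ
  | .inl v => if pos v < p then pos v else pos v + 4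
  | .inr t => p + t

/-- Module STEP: insertion of four cells. -/
def StStep : Prop :=
  ∀ (T : ℤ) (m p : ℕ) (V : Type) [Fintype V] [DecidableEq V] (S E : V → V → ℤ) (pos : V → ℕ)
    (a : V → ℤ) (e f g h : V), Core4 T m p V S E pos a e f g h →
    Core4 T (m + 4) p (V ⊕ Fin 4) (ins4 S e f) (insE E e f) (npos4 p pos)
      (ext4 a (a f) (-a e) (-a f) (a e)) (.inl e) (.inr 0) (.inl g) (.inl h)

/-- kernel modulo 2 equal to the constants -/
def Ker1 (S : V → V → ℤ) : Prop :=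
  ∀ v : V → ZMod 2, (∀ i, ∑ j, (S i j : ZMod 2) * v j = 0) → v = 0 ∨ v = fun _ => 1

/-- the parity of the solutions of `S w = 1` modulo 2 -/
def Par (S : V → V → ℤ) (σ : ZMod 2) : Prop :=
  ∃ w : V → ZMod 2, (∀ i, ∑ j, (S i j : ZMod 2) * w j = 1) ∧ ∑ i, w i = σ

/-- Module STEP1: the mod 2 conditions of the first kind are preserved. -/
def StStep1 : Prop :=
  ∀ (V : Type) [Fintype V] [DecidableEq V] (S : V → V → ℤ) (e f : V),
    (∀ i j, S i j = S j i) → e ≠ f → S e f = 1 →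
    (Ker1 S → Ker1 (ins4 S e f)) ∧ (∀ σ, Par S σ → Par (ins4 S e f) σ)

/-- Module EVL: 2-adic nonsingularity.  `B` is congruent to `S` modulo 2, has constant row sums `ρ`,
and the kernel of `S` modulo 2 consists of the constants. -/
def StEvl : Prop :=
  ∀ (V : Type) [Fintype V] [DecidableEq V] (S B : V → V → ℤ) (ρ : ℕ),
    (∀ i j, (B i j : ZMod 2) = S i j) → (∀ i j, B i j = B j i) → 0 < ρ → ρ % 2 = 0 →
    (∀ i, ∑ j, B i j = ρ) → Ker1 S →
    (Fintype.card V % 2 = 1 ∨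
      ∃ (r s : ℕ) (σ : ZMod 2), ρ = 2 ^ r * s ∧ s % 2 = 1 ∧ Par S σ ∧
        ∀ c : ℕ, Fintype.card V = 2 ^ r * c → σ ≠ (c : ZMod 2)) →
    ∀ y : V → ℝ, (∀ i, ∑ j, (B i j : ℝ) * y j = 0) → ∀ i, y i = 0

/-- kernel modulo 2 equal to the span of the constants and `z` -/
def Ker2 (S : V → V → ℤ) (z : V → ZMod 2) : Prop :=
  (∀ v : V → ZMod 2, (∀ i, ∑ j, (S i j : ZMod 2) * v j = 0) →
    v = 0 ∨ (v = fun _ => 1) ∨ v = z ∨ v = fun i => z i + 1) ∧ ∑ i, z i = 0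

/-- data for the nonsingularity without bulk -/
def Phi (S E : V → V → ℤ) (z : V → ZMod 2) (u : V → ℤ) : Prop :=
  (∀ i, (u i : ZMod 2) = z i) ∧
  (∀ i, (4 : ℤ) ∣ ∑ j, (S i j ^ 2 - 2 * E i j) * u j) ∧
  (8 : ℤ) ∣ ∑ i, u i * ∑ j, (S i j ^ 2 - 2 * E i j) * u j - 4

/-- data for the switching argument: `A B` and `C D` at distance `3`, `A C` and `B D` at distance
at most `2` and not excluded -/
def Gad (m p : ℕ) (S E : V → V → ℤ) (pos : V → ℕ) (z x0 : V → ZMod 2) (A B C D : V) : Prop :=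
  (∀ i, ∑ j, (S i j : ZMod 2) * x0 j = ((ind A i + ind B i + ind C i + ind D i : ℤ) : ZMod 2)) ∧
  x0 A + x0 B + x0 C + x0 D = 0 ∧ z A + z D = 1 ∧ z B + z C = 1 ∧ A ≠ D ∧ B ≠ C ∧
  rel m p 3 3 (pos A) (pos B) ∧ rel m p 3 3 (pos C) (pos D) ∧
  rel m p 1 2 (pos A) (pos C) ∧ rel m p 1 2 (pos B) (pos D) ∧ E A C = 0 ∧ E B D = 0

/-- Module STEP2: the conditions of the second kind are preserved. -/
def StStep2 : Prop :=
  ∀ (T : ℤ) (m p : ℕ) (V : Type) [Fintype V] [DecidableEq V] (S E : V → V → ℤ) (pos : V → ℕ)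
    (a : V → ℤ) (e f g h : V), Core4 T m p V S E pos a e f g h →
    ∀ (z x0 : V → ZMod 2) (u : V → ℤ) (A B C D : V),
    Ker2 S z → Phi S E z u → z e = z f → Gad m p S E pos z x0 A B C D →
    Ker2 (ins4 S e f) (ext4 z (z f) (z e) (z f) (z e)) ∧
    Phi (ins4 S e f) (insE E e f) (ext4 z (z f) (z e) (z f) (z e))
      (ext4 u (u f) (-u e - 2 * u f) (2 * u e + 3 * u f) (-3 * u e - 4 * u f)) ∧
    Gad (m + 4) p (ins4 S e f) (insE E e f) (npos4 p pos) (ext4 z (z f) (z e) (z f) (z e))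
      (ext4 x0 (x0 f) (x0 e) (x0 f) (x0 e)) (.inl A) (.inl B) (.inl C) (.inl D)

/-- Module PHI: nonsingularity of `B = S² - 2 E + 2 J` (entrywise square, `J` all ones). -/
def StPhi : Prop :=
  ∀ (V : Type) [Fintype V] [DecidableEq V] (S E : V → V → ℤ) (ρ : ℕ) (z : V → ZMod 2) (u : V → ℤ),
    (∀ i j, S i j = 0 ∨ S i j = 1 ∨ S i j = -1) → (∀ i j, S i j = S j i) →
    (∀ i j, E i j = E j i) → Fintype.card V % 2 = 1 → 0 < ρ →
    (∀ i, ∑ j, (S i j ^ 2 - 2 * E i j + 2) = (ρ : ℤ)) → Ker2 S z → Phi S E z u →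
    ∀ y : V → ℝ, (∀ i, ∑ j, ((S i j ^ 2 - 2 * E i j + 2 : ℤ) : ℝ) * y j = 0) → ∀ i, y i = 0

/-- Module SW2: of a matrix and its switching at least one is nonsingular. -/
def StSw2 : Prop :=
  ∀ (V : Type) [Fintype V] [DecidableEq V] (S B : V → V → ℤ) (ρ : ℕ) (z x0 : V → ZMod 2)
    (A B' C D : V),
    (∀ i j, (B i j : ZMod 2) = S i j) → (∀ i j, B i j = B j i) → Fintype.card V % 2 = 1 → 0 < ρ →
    (∀ i, ∑ j, B i j = (ρ : ℤ)) → Ker2 S z →
    (∀ i, ∑ j, (S i j : ZMod 2) * x0 j =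
      ((ind A i + ind B' i + ind C i + ind D i : ℤ) : ZMod 2)) →
    x0 A + x0 B' + x0 C + x0 D = 0 → z A + z D = 1 → z B' + z C = 1 →
    (∀ y : V → ℝ, (∀ i, ∑ j, (B i j : ℝ) * y j = 0) → ∀ i, y i = 0) ∨
    (∀ y : V → ℝ, (∀ i, ∑ j, ((B i j + 2 * sw A B' C D i j : ℤ) : ℝ) * y j = 0) → ∀ i, y i = 0)

/-- the complement of the excluded pairs and of the bulk -/
def K0 (m k : ℕ) (E : V → V → ℤ) (pos : V → ℕ) (i j : V) : ℤ :=
  if E i j = 0 ∧ ¬ blk m k (pos i) (pos j) then 1 else 0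

/-- Module ROW: row sums of the complement of the excluded pairs and of the bulk. -/
def StRow : Prop :=
  ∀ (T : ℤ) (m p k ρ : ℕ) (V : Type) [Fintype V] [DecidableEq V] (S E : V → V → ℤ) (pos : V → ℕ)
    (a : V → ℤ) (e f g h : V), Core4 T m p V S E pos a e f g h → 8 ≤ m → k + 5 ≤ m →
    (m % 2 = 1 → k % 2 = 1 → k + 6 ≤ m) → (m % 2 = 1 ∧ k % 2 = 1 → T = 6) →
    (¬ (m % 2 = 1 ∧ k % 2 = 1) → T = 4) → ρ + 4 + 2 * k = 2 * m →
    ∀ i, ∑ j, (S i j ^ 2 + 2 * K0 m k E pos i j) = (ρ : ℤ)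

/-- Module MARK: from a core to a graph with a marked edge. -/
def StMark : Prop :=
  ∀ (T : ℤ) (m p : ℕ) (V : Type) [Fintype V] [DecidableEq V] (S E : V → V → ℤ) (pos : V → ℕ)
    (a : V → ℤ) (e f g h : V) (K : V → V → ℤ) (ρ : ℕ), Core4 T m p V S E pos a e f g h →
    (∀ i j, K i j = 0 ∨ K i j = 1) → (∀ i j, K i j = K j i) →
    (∀ i j, K i j ≠ 0 → S i j = 0) → (∀ i, K i i = 0) →
    (∀ i, ∑ j, (S i j ^ 2 + 2 * K i j) = (ρ : ℤ)) →
    (∀ y : V → ℝ, (∀ i, ∑ j, ((S i j : ℝ) ^ 2 + 2 * K i j) * y j = 0) → ∀ i, y i = 0) →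
    GoodE ρ 1 (2 * m)

end cores

/-! ### certificates for cores -/

/-- certificate for a core on `Fin m`; `L` is `d` times a left inverse of `S` up to column `q` -/
def Chk4 (T : ℤ) (m p : ℕ) (S E L : List (List ℤ)) (a : List ℤ) (e f g h q : Fin m) (d : ℤ) :
    Prop :=
  (∀ i j : Fin m, ent S i j = 0 ∨ ent S i j = 1 ∨ ent S i j = -1) ∧
  (∀ i j : Fin m, ent S i j = ent S j i) ∧
  (∀ i : Fin m, ent S i i ≠ 1) ∧
  (∀ i j : Fin m, ent E i j = 0 ∨ ent E i j = 1) ∧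
  (∀ i j : Fin m, ent E i j = ent E j i) ∧
  (∀ i : Fin m, ent E i i = 1) ∧
  (∀ i j : Fin m, ent S i j ≠ 0 → ent E i j = 1) ∧
  (∀ i : Fin m, ∑ j : Fin m, (2 * ent E i j - ent S i j ^ 2) = if i.val = 0 then T else 4) ∧
  (∀ i j : Fin m, ent E i j ≠ 0 → rel m p 0 2 i j ∨ (i = e ∧ j = f) ∨ (i = f ∧ j = e)) ∧
  (e.val + 1 = p) ∧ (f.val = p) ∧ (ent S e f = 1) ∧
  (∀ i : Fin m, a.getD i 0 ≠ 0) ∧
  (∀ i : Fin m, ∑ j : Fin m, ent S i j * a.getD j 0 = 0) ∧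
  (∀ j k : Fin m, k ≠ q → ∑ i : Fin m, ent L j i * ent S i k = if j = k then d else 0) ∧
  (∀ j : Fin m, j ≠ q → (∑ i : Fin m, ent L j i * ent S i q) * a.getD q 0 = - (d * a.getD j 0)) ∧
  d ≠ 0 ∧ ent S g h ≠ 0 ∧ g ≠ h ∧ a.getD g 0 = ent S g h * a.getD h 0 ∧
  ¬ ((g = e ∧ h = f) ∨ (g = f ∧ h = e))

instance (T : ℤ) (m p : ℕ) (S E L : List (List ℤ)) (a : List ℤ) (e f g h q : Fin m) (d : ℤ) :
    Decidable (Chk4 T m p S E L a e f g h q d) := by
  unfold Chk4; infer_instance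

/-- certificate for `Ker1` -/
def ChkK1 (m : ℕ) (S L : List (List ℤ)) (q : Fin m) : Prop :=
  ∀ j k : Fin m, (∑ i : Fin m, ent L j i * ent S i k + (if j = k then 1 else 0) +
    (if k = q then 1 else 0)) % 2 = 0

instance (m : ℕ) (S L : List (List ℤ)) (q : Fin m) : Decidable (ChkK1 m S L q) := by
  unfold ChkK1; infer_instance

/-- certificate for `Par` -/
def ChkP (m : ℕ) (S : List (List ℤ)) (w : List ℤ) (σ : ℤ) : Prop :=
  (∀ i : Fin m, (∑ j : Fin m, ent S i j * w.getD j 0) % 2 = 1) ∧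
  (∑ i : Fin m, w.getD i 0 - σ) % 2 = 0

instance (m : ℕ) (S : List (List ℤ)) (w : List ℤ) (σ : ℤ) : Decidable (ChkP m S w σ) := by
  unfold ChkP; infer_instance

/-- certificate for the data of the second kind -/
def Chk2 (m p : ℕ) (S E L : List (List ℤ)) (z x u : List ℤ) (q q' A B C D : Fin m) : Prop :=
  (∀ j k : Fin m, (∑ i : Fin m, ent L j i * ent S i k + (if j = k then 1 else 0) +
    z.getD j 0 * (if k = q then 1 else 0) + (z.getD j 0 + 1) * (if k = q' then 1 else 0)) % 2 = 0) ∧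
  (∑ i : Fin m, z.getD i 0) % 2 = 0 ∧
  (∀ i : Fin m, (u.getD i 0 - z.getD i 0) % 2 = 0) ∧
  (∀ i : Fin m, (∑ j : Fin m, (ent S i j ^ 2 - 2 * ent E i j) * u.getD j 0) % 4 = 0) ∧
  (∑ i : Fin m, u.getD i 0 * ∑ j : Fin m, (ent S i j ^ 2 - 2 * ent E i j) * u.getD j 0) % 8 = 4 ∧
  (∀ i : Fin m, (∑ j : Fin m, ent S i j * x.getD j 0 +
    (ind A i + ind B i + ind C i + ind D i)) % 2 = 0) ∧
  ((x.getD A 0 + x.getD B 0 + x.getD C 0 + x.getD D 0) % 2 = 0) ∧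
  ((z.getD A 0 + z.getD D 0) % 2 = 1) ∧
  ((z.getD B 0 + z.getD C 0) % 2 = 1) ∧
  (A ≠ D) ∧ (B ≠ C) ∧
  (rel m p 3 3 A B) ∧ (rel m p 3 3 C D) ∧ (rel m p 1 2 A C) ∧ (rel m p 1 2 B D) ∧
  (ent E A C = 0) ∧ (ent E B D = 0)

instance (m p : ℕ) (S E L : List (List ℤ)) (z x u : List ℤ) (q q' A B C D : Fin m) :
    Decidable (Chk2 m p S E L z x u q q' A B C D) := by
  unfold Chk2 ind; infer_instance

/-- Module CHK: the certificates are sound. -/
def StChk : Prop :=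
  (∀ (T : ℤ) (m p : ℕ) (S E L : List (List ℤ)) (a : List ℤ) (e f g h q : Fin m) (d : ℤ),
    Chk4 T m p S E L a e f g h q d →
    Core4 T m p (Fin m) (fun i j => ent S i j) (fun i j => ent E i j) (fun i => i.val)
      (fun i => a.getD i 0) e f g h) ∧
  (∀ (m : ℕ) (S L : List (List ℤ)) (q : Fin m), ChkK1 m S L q →
    Ker1 (fun i j : Fin m => ent S i j)) ∧
  (∀ (m : ℕ) (S : List (List ℤ)) (w : List ℤ) (σ : ℤ), ChkP m S w σ →
    Par (fun i j : Fin m => ent S i j) (σ : ZMod 2)) ∧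
  (∀ (m p : ℕ) (S E L : List (List ℤ)) (z x u : List ℤ) (q q' A B C D : Fin m),
    Chk2 m p S E L z x u q q' A B C D →
    Ker2 (fun i j : Fin m => ent S i j) (fun i => ((z.getD i 0 : ℤ) : ZMod 2)) ∧
    Phi (fun i j : Fin m => ent S i j) (fun i j : Fin m => ent E i j)
      (fun i => ((z.getD i 0 : ℤ) : ZMod 2)) (fun i => u.getD i 0) ∧
    Gad m p (fun i j : Fin m => ent S i j) (fun i j : Fin m => ent E i j) (fun i => i.val)
      (fun i => ((z.getD i 0 : ℤ) : ZMod 2)) (fun i => ((x.getD i 0 : ℤ) : ZMod 2)) A B C D)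


end Pool.Agent.J6H68.Nut
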